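import Pool.Agent.Helper77.SI.Lower
import Pool.Agent.Helper23.Hyper.Perron

/-!
# MP_1ac531_co: the maximum for superincreasing coefficient vectors

`Superincreasing a`: the absolute values of the entries of `a : Fin n → ℝ` can be listed in an
order such that each one is larger than the sum of all later ones.
-/

open Filter Topology

namespace Pool.Agent.Helper77.SI.Old.Super

open Pool.Agent.Helper77.SI Pool.Agent.Helper23.Hyper

/-- For superincreasing real vectors the maximal number of points of `{0, ±1, ±2}^n` on a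
hyperplane `a · x = T` is exactly `d n ∼ κ β^n`, and the maximum over the hyperplanes `a · x = 0`
with superincreasing `a` (all of them admissible) has exact order `β^n`. -/
theorem result : ∃ d : ℕ → ℕ, (d 1 = 1 ∧ d 2 = 3 ∧ d 3 = 8 ∧ d 4 = 20 ∧
      ∀ n, 1 ≤ n → d (n + 4) + 2 * d (n + 1) = 2 * d (n + 3) + 2 * d (n + 2) + d n) ∧
    (∀ (n k : ℕ) (a : Fin n → ℝ) (e : Fin k ↪ Fin n) (T : ℝ), 1 ≤ k → Superincreasing (a ∘ e) →
      secR a T ≤ 5 ^ (n - k) * d k) ∧
    (∀ (n : ℕ) (a : Fin n → ℝ), Superincreasing a → AdmissibleR a) ∧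
    (∀ n : ℕ, 1 ≤ n → Superincreasing (fun i : Fin n => (2 : ℝ) ^ (i : ℕ)) ∧
      ∃ T : ℝ, secR (fun i : Fin n => (2 : ℝ) ^ (i : ℕ)) T = d n) ∧
    ∀ β : ℝ, IsGreatest {z : ℝ | z ^ 8 - 8 * z ^ 6 + 10 * z ^ 4 + 1 = 0} β →
      (∃ κ : ℝ, 0 < κ ∧ Tendsto (fun n => (d n : ℝ) / β ^ n) atTop (𝓝 κ)) ∧
      (∃ c C : ℝ, 0 < c ∧ (∀ (n : ℕ) (a : Fin n → ℝ), Superincreasing a →
          (secR a 0 : ℝ) ≤ C * β ^ n) ∧
        ∀ n : ℕ, 1 ≤ n → ∃ a : Fin n → ℤ, Superincreasing (fun i => (a i : ℝ)) ∧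
          c * β ^ n ≤ (secR (fun i => (a i : ℝ)) 0 : ℝ)) := by
  refine ⟨Q, ⟨by decide, by decide, by decide, by decide, fun n _ => Q_rec n⟩,
    fun n k a e T hk h => secR_le a e T hk h, fun n a h => h.admissible,
    fun n _ => ⟨superincreasing_pows n, secR_pows n⟩, ?_⟩
  intro β hβ
  have h1 := root_ge hβ
  have h2 := quartic_of_octic h1 hβ.1
  obtain ⟨κ, hκ, ht, c, hc, hP⟩ := perron h1 h2
  have hβ0 : 0 < β := by linarith
  have hβ1 : 1 ≤ β := by linarith
  refine ⟨⟨κ, hκ, ht⟩, ?_⟩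
  obtain ⟨C, hC⟩ := ht.bddAbove_range
  refine ⟨min (2 * c / β ^ 3) (1 / β ^ 3), max C 1, lt_min (by positivity) (by positivity), ?_, ?_⟩
  · intro n a ha
    rcases Nat.eq_zero_or_pos n with hn | hn
    · subst hn
      have h3 : secR a 0 ≤ 1 := by
        rw [secR_eq]
        simp [cntR]
      have h4 : (secR a 0 : ℝ) ≤ 1 := by exact_mod_cast h3
      rw [pow_zero, mul_one]
      exact h4.trans (le_max_right _ _)
    · have h3 := secR_le a (Function.Embedding.refl (Fin n)) 0 hn ha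
      rw [Nat.sub_self, pow_zero, one_mul] at h3
      have h4 : (secR a 0 : ℝ) ≤ Q n := by exact_mod_cast h3
      have h5 : (Q n : ℝ) / β ^ n ≤ C := hC ⟨n, rfl⟩
      have hp : 0 < β ^ n := pow_pos hβ0 n
      rw [div_le_iff₀ hp] at h5
      exact h4.trans (h5.trans (mul_le_mul_of_nonneg_right (le_max_left _ _) hp.le))
  · intro n hn
    have hp : 0 < β ^ n := pow_pos hβ0 n
    rcases Nat.lt_or_ge n 4 with hm | hm
    · refine ⟨fun i => 2 ^ (i : ℕ), ?_, ?_⟩
      · have h3 := superincreasing_pows n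
        simpa using h3
      · have h3 := one_le_secR_zero (fun i : Fin n => (((2 : ℤ) ^ (i : ℕ) : ℤ) : ℝ))
        have h4 : (1 : ℝ) ≤ secR (fun i : Fin n => (((2 : ℤ) ^ (i : ℕ) : ℤ) : ℝ)) 0 := by
          exact_mod_cast h3
        refine le_trans ?_ h4
        have h5 : β ^ n ≤ β ^ 3 := pow_le_pow_right₀ hβ1 (by omega)
        calc min (2 * c / β ^ 3) (1 / β ^ 3) * β ^ n ≤ 1 / β ^ 3 * β ^ n :=
              mul_le_mul_of_nonneg_right (min_le_right _ _) hp.le
          _ ≤ 1 / β ^ 3 * β ^ 3 := mul_le_mul_of_nonneg_left h5 (by positivity)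
          _ = 1 := by field_simp
    · obtain ⟨m, rfl⟩ : ∃ m, n = m + 1 + 3 := ⟨n - 4, by omega⟩
      obtain ⟨a, ha⟩ := ext_eq_cast (m + 1)
      refine ⟨a, ?_, ?_⟩
      · rw [ha]
        exact superincreasing_ext (m + 1) (by omega)
      · rw [ha]
        have h3 := secR_ext (m + 1)
        have h4 : (2 : ℝ) * Q (m + 1) ≤ secR (ext (m + 1)) 0 := by exact_mod_cast h3
        refine le_trans ?_ h4
        have h5 := ineqs m
        have h6 : (P (m + 1) : ℝ) ≤ Q (m + 1) := by exact_mod_cast h5.1.trans h5.2.1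
        calc min (2 * c / β ^ 3) (1 / β ^ 3) * β ^ (m + 1 + 3)
            ≤ 2 * c / β ^ 3 * β ^ (m + 1 + 3) :=
              mul_le_mul_of_nonneg_right (min_le_left _ _) hp.le
          _ = 2 * (c * β ^ (m + 1)) := by rw [pow_add β (m + 1) 3]; field_simp
          _ ≤ 2 * Q (m + 1) := by linarith [hP m]

end Pool.Agent.Helper77.SI.Old.Super
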