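import Pool.Agent.Helper23.Hyper.Bridge
import Pool.Agent.Helper23.Hyper.Perron

/-!
# MP_1ac531_co: the maximum for triangular coefficient vectors

`Triangular a`: the entries of `a : Fin n → ℤ` are nonzero and can be listed in an order such that
for each entry there is a prime at which it has strictly smaller valuation than all later entries
(for example: pairwise distinct `2`-adic valuations).
-/

open Filter Topology

namespace Pool.Agent.Helper77.SI.Old.Triang

open Pool.Agent.Helper23.Hyper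

/-- For triangular vectors the maximal number of points of `{0, ±1, ±2}^n` on a hyperplane
`a · x = T` is exactly `d n ∼ κ β^n`, and the maximum over admissible hyperplanes `a · x = 0` with
triangular `a` has exact order `β^n`. -/
theorem result : ∃ d : ℕ → ℕ, (d 1 = 1 ∧ d 2 = 3 ∧ d 3 = 8 ∧ d 4 = 20 ∧
      ∀ n, 1 ≤ n → d (n + 4) + 2 * d (n + 1) = 2 * d (n + 3) + 2 * d (n + 2) + d n) ∧
    (∀ (n k : ℕ) (a : Fin n → ℤ) (e : Fin k ↪ Fin n) (T : ℤ), 1 ≤ k → Triangular (a ∘ e) →
      secCount a T ≤ 5 ^ (n - k) * d k) ∧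
    (∀ (n : ℕ) (a : Fin n → ℤ), Triangular a → Admissible a) ∧
    (∀ n : ℕ, 1 ≤ n → ∃ T : ℤ, secCount (fun i : Fin n => (2 : ℤ) ^ (i : ℕ)) T = d n) ∧
    ∀ β : ℝ, IsGreatest {z : ℝ | z ^ 8 - 8 * z ^ 6 + 10 * z ^ 4 + 1 = 0} β →
      (∃ κ : ℝ, 0 < κ ∧ Tendsto (fun n => (d n : ℝ) / β ^ n) atTop (𝓝 κ)) ∧
      (∃ c C : ℝ, 0 < c ∧ (∀ (n : ℕ) (a : Fin n → ℤ), Triangular a →
          (secCount a 0 : ℝ) ≤ C * β ^ n) ∧
        ∀ n : ℕ, 1 ≤ n → ∃ a : Fin n → ℤ, Triangular a ∧ c * β ^ n ≤ (secCount a 0 : ℝ)) := by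
  refine ⟨Q, ⟨by decide, by decide, by decide, by decide, fun n _ => Q_rec n⟩,
    fun n k a e T hk h => secCount_le a e T hk h, fun n a h => h.admissible,
    fun n _ => secCount_pows n, ?_⟩
  intro β hβ
  have h1 := root_ge hβ
  have h2 := quartic_of_octic h1 hβ.1
  obtain ⟨κ, hκ, ht, c, hc, hP⟩ := perron h1 h2
  have hβ0 : 0 < β := by linarith
  refine ⟨⟨κ, hκ, ht⟩, ?_⟩
  obtain ⟨C, hC⟩ := ht.bddAbove_range
  refine ⟨min (2 * c / β) (1 / β), max C 1, lt_min (by positivity) (by positivity), ?_, ?_⟩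
  · intro n a ha
    rcases Nat.eq_zero_or_pos n with hn | hn
    · subst hn
      have h3 : secCount a 0 ≤ 1 := by
        rw [secCount_eq]
        simp [cnt]
      have h4 : (secCount a 0 : ℝ) ≤ 1 := by exact_mod_cast h3
      rw [pow_zero, mul_one]
      exact h4.trans (le_max_right _ _)
    · have h3 := secCount_le a (Function.Embedding.refl (Fin n)) 0 hn ha
      rw [Nat.sub_self, pow_zero, one_mul] at h3
      have h4 : (secCount a 0 : ℝ) ≤ Q n := by exact_mod_cast h3
      have h5 : (Q n : ℝ) / β ^ n ≤ C := hC ⟨n, rfl⟩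
      have hp : 0 < β ^ n := pow_pos hβ0 n
      rw [div_le_iff₀ hp] at h5
      exact h4.trans (h5.trans (mul_le_mul_of_nonneg_right (le_max_left _ _) hp.le))
  · intro n hn
    have hp : 0 < β ^ n := pow_pos hβ0 n
    obtain ⟨m, rfl⟩ : ∃ m, n = m + 1 := ⟨n - 1, by omega⟩
    rcases Nat.eq_zero_or_pos m with hm | hm
    · subst hm
      refine ⟨fun _ => 1, ⟨fun _ => one_ne_zero, Equiv.refl _, fun i => ⟨2, Nat.prime_two, ?_⟩⟩, ?_⟩
      · intro j hij
        have := i.2
        have := j.2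
        have : (i : ℕ) < j := hij
        omega
      · have h3 : 1 ≤ secCount (fun _ : Fin (0 + 1) => (1 : ℤ)) 0 := by
          rw [secCount_eq]
          simp [cnt]
        have h4 : (1 : ℝ) ≤ secCount (fun _ : Fin (0 + 1) => (1 : ℤ)) 0 := by exact_mod_cast h3
        refine le_trans ?_ h4
        calc min (2 * c / β) (1 / β) * β ^ (0 + 1) ≤ 1 / β * β ^ (0 + 1) :=
              mul_le_mul_of_nonneg_right (min_le_right _ _) hp.le
          _ = 1 := by rw [zero_add, pow_one]; field_simp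
    · obtain ⟨m, rfl⟩ : ∃ m', m = m' + 1 := ⟨m - 1, by omega⟩
      refine ⟨special (m + 1), special_triangular m, ?_⟩
      have h3 := secCount_special m
      have h4 : (2 : ℝ) * P (m + 1) ≤ secCount (special (m + 1)) 0 := by exact_mod_cast h3
      refine le_trans ?_ h4
      calc min (2 * c / β) (1 / β) * β ^ (m + 1 + 1) ≤ 2 * c / β * β ^ (m + 1 + 1) :=
            mul_le_mul_of_nonneg_right (min_le_left _ _) hp.le
        _ = 2 * (c * β ^ (m + 1)) := by rw [pow_succ β (m + 1)]; field_simp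
        _ ≤ 2 * P (m + 1) := by linarith [hP m]

end Pool.Agent.Helper77.SI.Old.Triang
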